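import Mathlib
import Pool.Prelude.Def_F_c31e40fa
import Pool.Agent.Q186.Ren.Dim

set_option autoImplicit false

/-! # Infinitely renormalizable parameters and superattracting parameters of bounded period

Let `dist_N` be the distance of a parameter of the boundary of the Mandelbrot set to the
superattracting parameters of period at most `N`. At typical boundary points this distance is
exponentially small in `N`. At infinitely renormalizable parameters it is not: `(1 / N) log dist_N`
tends to `0`, outside a set of Hausdorff dimension zero, and at all those whose renormalizations have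
bounds which are subexponential in the period. -/

open Filter Topology Set Metric MeasureTheory Complex N62a1eb23

namespace Pool.Agent.Results.MP_b511e9_an.SuperattractingDistance

/-- The map `z ↦ z ^ 2 + c`. -/
def f (c : ℂ) : ℂ → ℂ := fun z => z ^ 2 + c

/-- `c` is a superattracting parameter of period at most `N`: the critical point `0` is periodic of a
period `p ≤ N`, and so it lies on an attracting cycle. -/
def Centre (N : ℕ) (c : ℂ) : Prop :=
  ∃ p : ℕ, 1 ≤ p ∧ p ≤ N ∧ (f c)^[p] 0 = 0 ∧ IsAttractingCycle (f c) p 0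

/-- The distance of `c` to the superattracting parameters of period at most `N`. -/
noncomputable def distC (c : ℂ) (N : ℕ) : ℝ := infDist c {c' | Centre N c'}

/-- `g` is proper of degree at most two from the bounded open set `U` onto a set which contains the
closure of `U`. Quadratic-like maps have this property. -/
def PolynomialLike (g : ℂ → ℂ) (U : Set ℂ) : Prop :=
  IsOpen U ∧ Bornology.IsBounded U ∧ closure U ⊆ g '' U ∧
    (∀ K ⊆ g '' U, IsCompact K → IsCompact {z | z ∈ U ∧ g z ∈ K}) ∧
    ∀ w ∈ g '' U, {z | z ∈ U ∧ g z = w}.encard ≤ 2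

/-- `f c` is renormalizable of period `p`: the iterate of order `p` is polynomial-like on a
neighbourhood `U` of `0` which contains the points `f^[n p] 0`, and `0` is the only critical point of
this iterate in the closure of `U`. -/
def Renormalizable (c : ℂ) (p : ℕ) : Prop :=
  ∃ U : Set ℂ, PolynomialLike ((f c)^[p]) U ∧ (0 : ℂ) ∈ U ∧
    (∀ n : ℕ, 1 ≤ n → (f c)^[n * p] 0 ∈ U) ∧
    ∀ z ∈ closure U, deriv ((f c)^[p]) z = 0 → z = 0

/-- Bounds `C` for the period `p`: the iterate of order `p` maps a set `U` which contains the discs of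
some radius `r` about the points `f^[n p] 0` onto a set of diameter at most `C r`. Under a priori
bounds one has `Bounds C c p` for a fixed `C` and infinitely many `p`. -/
def Bounds (C : ℝ) (c : ℂ) (p : ℕ) : Prop :=
  ∃ (U : Set ℂ) (r : ℝ), 0 < r ∧ (∀ n : ℕ, ball ((f c)^[n * p] 0) r ⊆ U) ∧
    ∀ z ∈ U, ∀ z' ∈ U, ‖(f c)^[p] z - (f c)^[p] z'‖ ≤ C * r

/-- (1) The set of the infinitely renormalizable parameters `c` of the boundary of the Mandelbrot set
at which `(1 / N) log (distC c N)` does not tend to zero has Hausdorff dimension zero; in particular it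
is totally disconnected and has measure zero.

(2) If `c` is a boundary point of the Mandelbrot set and the bounds are subexponential in the period
for infinitely many periods, then `(1 / N) log (distC c N)` tends to zero.

(3) For `p ≥ 1` and `a > 0` the boundary points `c` which are renormalizable of period `p` and satisfy
`distC c N ≤ exp (- a N)` for infinitely many `N` form a set of Hausdorff dimension at most
`log 2 / (p a)`. -/
theorem result :
    (dimH {c : ℂ | c ∈ frontier mandelbrotSet ∧ {p : ℕ | Renormalizable c p}.Infinite ∧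
        ¬ Tendsto (fun N : ℕ => Real.log (distC c N) / N) atTop (𝓝 0)} = 0 ∧
      IsTotallyDisconnected {c : ℂ | c ∈ frontier mandelbrotSet ∧
        {p : ℕ | Renormalizable c p}.Infinite ∧
        ¬ Tendsto (fun N : ℕ => Real.log (distC c N) / N) atTop (𝓝 0)} ∧
      volume {c : ℂ | c ∈ frontier mandelbrotSet ∧ {p : ℕ | Renormalizable c p}.Infinite ∧
        ¬ Tendsto (fun N : ℕ => Real.log (distC c N) / N) atTop (𝓝 0)} = 0) ∧
    (∀ c ∈ frontier mandelbrotSet,
      (∀ ε : ℝ, 0 < ε → {p : ℕ | Bounds (Real.exp (ε * p)) c p}.Infinite) →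
        Tendsto (fun N : ℕ => Real.log (distC c N) / N) atTop (𝓝 0)) ∧
    ∀ p : ℕ, 1 ≤ p → ∀ a : ℝ, 0 < a →
      dimH {c : ℂ | c ∈ frontier mandelbrotSet ∧ Renormalizable c p ∧
        ∃ᶠ N : ℕ in atTop, distC c N ≤ Real.exp (-(a * N))} ≤
        ENNReal.ofReal (Real.log 2 / (p * a)) := by
  have hcen : ∀ N : ℕ, {c | Centre N c} = {c | Pool.Agent.Q186.Cen.Cn 2 N c} := by
    intro N
    ext c
    constructor
    · rintro ⟨p, h1, h2, h3, h4⟩
      exact ⟨p, h1, h2, h3⟩
    · intro h
      obtain ⟨h1, p, h2, h3, h4, h5⟩ := Pool.Agent.Q186.Cen.cn_cycle le_rfl h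
      exact ⟨p, h2, h3, h4, h5⟩
  have hdist : ∀ (c : ℂ) (N : ℕ), distC c N = infDist c {c' | Pool.Agent.Q186.Cen.Cn 2 N c'} := by
    intro c N
    unfold distC
    rw [hcen]
  have hfr : ∀ c : ℂ, c ∈ frontier mandelbrotSet ↔
      c ∈ multibrotSet 2 ∧ c ∉ interior (multibrotSet 2) := by
    intro c
    have hcl : IsClosed mandelbrotSet := (Pool.Agent.H712R2.isCompact_multibrot le_rfl).isClosed
    rw [hcl.frontier_eq]
    rfl
  have hdim : dimH {c : ℂ | c ∈ frontier mandelbrotSet ∧ {p : ℕ | Renormalizable c p}.Infinite ∧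
      ¬ Tendsto (fun N : ℕ => Real.log (distC c N) / N) atTop (𝓝 0)} = 0 := by
    apply le_antisymm _ bot_le
    refine (dimH_mono ?_).trans (Pool.Agent.Q186.Ren.dim_inf (d := 2) le_rfl).le
    rintro c ⟨h1, h2, h3⟩
    have h4 := (hfr c).1 h1
    refine ⟨h4, h2, ?_⟩
    by_contra hcon
    push Not at hcon
    apply h3
    simp only [hdist]
    apply Pool.Agent.Q186.Ren.tendsto_zero le_rfl h4.1
    intro a ha
    have h5 := hcon a ha
    filter_upwards [h5] with N hN using hN
  refine ⟨⟨hdim, Pool.Agent.Y736.RN.totallyDisconnected_of_dimH (by rw [hdim]; norm_num),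
    Pool.Agent.Y736.RN.volume_zero_of_dimH (by rw [hdim]; norm_num)⟩, ?_, ?_⟩
  · intro c hc h
    have h4 := (hfr c).1 hc
    simp only [hdist]
    apply Pool.Agent.Q186.Ren.zero_of_bounds le_rfl h4.1 h4.2
    intro ε hε
    refine (h ε hε).mono ?_
    rintro p ⟨U, r, hr, hball, hdiam⟩ i
    exact Pool.Agent.Y736.RN.deriv_le' hr hball hdiam i
  · intro p hp a ha
    have h := Pool.Agent.Q186.Ren.dim_ren (d := 2) le_rfl hp ha
    refine (dimH_mono ?_).trans h
    rintro c ⟨h1, h2, h3⟩
    refine ⟨(hfr c).1 h1, h2, ?_⟩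
    simpa only [hdist] using h3

end Pool.Agent.Results.MP_b511e9_an.SuperattractingDistance
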